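import Pool.Agent.helper77.PV.SpecC2

/-!
# Project pv, row BTR: Bott periodicity for all Banach algebras, by renorming
-/

set_option autoImplicit false

open scoped Matrix Topology
open Filter

namespace Pool.Agent.PV

open Pool.Agent.CZ

theorem BTR_cmp_cont (B D : Type) [NormedRing B] [NormedAlgebra ℂ B] [NormedRing D]
    [NormedAlgebra ℂ D] (φ : B →ₐ[ℂ] D) (hφ : Continuous φ) :
    Continuous (cmpC UnitAddCircle φ hφ).toRingHom :=
  ContinuousMap.continuous_postcomp (⟨φ, hφ⟩ : C(B, D))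

theorem BTR_k1map_congr {A B : Type} [Ring A] [Ring B] [TopologicalSpace A] [TopologicalSpace B]
    (φ ψ : A →+* B) (hφ : Continuous φ) (hψ : Continuous ψ) (h : φ = ψ) (z : K1 A) :
    k1map φ hφ z = k1map ψ hψ z := by
  subst h
  rfl

theorem BTR (hBT1 : BT1_stmt) (hRNM : RNM_stmt) (hBET : BET_stmt) (hBEN : BEN_stmt)
    (hFUN : FUN_stmt) : BOT_stmt := by
  obtain ⟨k0id, k0comp, -, k1id, k1comp⟩ := hFUN
  obtain ⟨hN1, hN2⟩ := hBEN
  intro B _ _ _
  obtain ⟨B', i1, i2, i3, f, hf, hg, h1⟩ := hRNM B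
  obtain ⟨be, hbe⟩ := hBET B
  obtain ⟨be', d', hbe', h1', h2', h3', h4'⟩ := hBT1 B' h1
  let fa : B →ₐ[ℂ] B' := (f : B →ₐ[ℂ] B')
  let ga : B' →ₐ[ℂ] B := (f.symm : B' →ₐ[ℂ] B)
  have hfa : Continuous fa := hf
  have hga : Continuous ga := hg
  let Fa := cmpC UnitAddCircle fa hfa
  let Ga := cmpC UnitAddCircle ga hga
  have hFa : Continuous Fa.toRingHom := BTR_cmp_cont B B' fa hfa
  have hGa : Continuous Ga.toRingHom := BTR_cmp_cont B' B ga hga
  have hfr : Continuous fa.toRingHom := hf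
  -- naturality
  have nat1 : ∀ z, k1map Fa.toRingHom hFa (be z) = be' (k0map fa.toRingHom z) := fun z =>
    hN1 B B' fa hfa be be' hFa hbe hbe' z
  have gf : ∀ z, k0map ga.toRingHom (k0map fa.toRingHom z) = z := by
    intro z
    rw [← k0comp]
    have e : ga.toRingHom.comp fa.toRingHom = RingHom.id B := by
      ext b
      exact f.symm_apply_apply b
    rw [e, k0id]
  have fg : ∀ z, k0map fa.toRingHom (k0map ga.toRingHom z) = z := by
    intro z
    rw [← k0comp]
    have e : fa.toRingHom.comp ga.toRingHom = RingHom.id B' := by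
      ext b
      exact f.apply_symm_apply b
    rw [e, k0id]
  have GF : ∀ z, k1map Ga.toRingHom hGa (k1map Fa.toRingHom hFa z) = z := by
    intro z
    have e : Ga.toRingHom.comp Fa.toRingHom = RingHom.id C(UnitAddCircle, B) := by
      ext u t
      exact f.symm_apply_apply (u t)
    rw [← k1comp _ _ _ Fa.toRingHom Ga.toRingHom hFa hGa (hGa.comp hFa)]
    rw [BTR_k1map_congr _ _ _ continuous_id e, k1id]
  have Fcl : ∀ y, k1map Fa.toRingHom hFa (k1map (cl B).toRingHom (cl_cont B) y) =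
      k1map (cl B').toRingHom (cl_cont B') (k1map fa.toRingHom hfr y) := by
    intro y
    rw [← k1comp _ _ _ (cl B).toRingHom Fa.toRingHom (cl_cont B) hFa (hFa.comp (cl_cont B)),
      ← k1comp _ _ _ fa.toRingHom (cl B').toRingHom hfr (cl_cont B') ((cl_cont B').comp hfr)]
    refine BTR_k1map_congr _ _ _ _ ?_ _
    ext b t
    rfl
  have Fel : ∀ y, k1map fa.toRingHom hfr (k1map (el B).toRingHom (el_cont B) y) =
      k1map (el B').toRingHom (el_cont B') (k1map Fa.toRingHom hFa y) := by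
    intro y
    rw [← k1comp _ _ _ (el B).toRingHom fa.toRingHom (el_cont B) hfr (hfr.comp (el_cont B)),
      ← k1comp _ _ _ Fa.toRingHom (el B').toRingHom hFa (el_cont B') ((el_cont B').comp hFa)]
    refine BTR_k1map_congr _ _ _ _ ?_ _
    ext b
    rfl
  refine ⟨be, (k0map ga.toRingHom).comp (d'.comp (k1map Fa.toRingHom hFa)), hbe, ?_, ?_, ?_, ?_⟩
  · intro z
    change k0map ga.toRingHom (d' (k1map Fa.toRingHom hFa (be z))) = z
    rw [nat1, h1', gf]
  · intro y
    change k0map ga.toRingHom (d' (k1map Fa.toRingHom hFa _)) = 0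
    rw [Fcl, h2', map_zero]
  · exact hN2 B be hbe
  · intro y
    change y = _ + be (k0map ga.toRingHom (d' (k1map Fa.toRingHom hFa y)))
    have e : k1map Fa.toRingHom hFa y = k1map Fa.toRingHom hFa
        (k1map (cl B).toRingHom (cl_cont B) (k1map (el B).toRingHom (el_cont B) y) +
          be (k0map ga.toRingHom (d' (k1map Fa.toRingHom hFa y)))) := by
      rw [map_add, Fcl, Fel, nat1, fg]
      exact h4' _
    have e2 := congrArg (k1map Ga.toRingHom hGa) e
    rw [GF, GF] at e2
    exact e2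

end Pool.Agent.PV
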