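import Pool.Agent.helper45.PV.SpecG

/-!
# Project pv, row S20: `K₀` of the suspension, injectivity
-/

set_option autoImplicit false

open scoped Matrix Topology

namespace Pool.Agent.PV

open Pool.Agent.CZ

theorem S20 (hFUN : FUN_stmt) (hSX0 : SX0_stmt) (hHOL : HOL_stmt) (hCPL : CPL_stmt)
    (hLC1 : LC1_stmt) (hS2S : S2S_stmt) : S20_stmt := by
  obtain ⟨-, k0comp, -, -, -⟩ := hFUN
  obtain ⟨cp1, -, cp2⟩ := hCPL
  intro D _ _ _ χ hχ hK1 z hz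
  obtain ⟨de, -, -, hinj, hsurj⟩ := hHOL D
  obtain ⟨lc1, -⟩ := hLC1 D χ hχ de hinj hsurj
  have he : k0map (eL χ).toRingHom (k0map (i2 χ).toRingHom z) = 0 := by
    rw [← k0comp]
    exact hz
  have hx : k0map (i2 χ).toRingHom z = 0 := lc1 _ he (hK1 _)
  haveI := cp1 D
  haveI := cp2 D χ hχ
  obtain ⟨-, h⟩ := hSX0 (L2 χ) (L1 D) C(UnitAddCircle, ℂ) (i2 χ) (ec χ hχ) (rLG D) (el ℂ)
    (hS2S D χ hχ)
  exact (h z 0 (map_zero _) (by rw [hx, map_zero, add_zero])).1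

end Pool.Agent.PV
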